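import Pool.Agent.G02.StmtsS
import Pool.Agent.Helper75_NJ.Bad

set_option autoImplicit false

/-!
# Squad G02, module BD1: bad places in polynomial form
-/

namespace Pool.Agent.G02.H85

open Pool.Agent.G02 Pool.Agent.NJ Pool.Agent.NJ.H75 Polynomial

noncomputable section

/-- The orders at a good place. -/
lemma key1 (gd1 : Gd1Stmt) {A : ValuationSubring (RatFunc ℂ)} {v : RatFunc ℂ → ℤ}
    {n : ℂ[X] → ℤ} (h : Ord A v n) {E : WeierstrassCurve ℚ[X]}
    (hg : GoodAt (genC E) A) {e a b : ℚ[X]} (hR : Rt1 E e a b) :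
    b ≠ 0 ∧ a ^ 2 - 4 * b ≠ 0 ∧ ∃ k : ℤ, n (b.map (algebraMap ℚ ℂ)) = 4 * k ∧
      n ((a ^ 2 - 4 * b).map (algebraMap ℚ ℂ)) = 4 * k ∧
      (a ≠ 0 → 2 * k ≤ n (a.map (algebraMap ℚ ℂ))) := by
  have hR' : Rt1 (genC E) (gq e) (gq a) (gq b) := hR.map gq
  obtain ⟨w, hw, a1, b1, b2, c1, c2, nb, nc⟩ := gd1 (genC E) A _ _ _ h.hC hR' hg
  have hb0 : b ≠ 0 := by
    rintro rfl
    exact nb (map_zero _)
  have ec : gq a ^ 2 - 4 * gq b = gq (a ^ 2 - 4 * b) := by
    simp only [map_sub, map_mul, map_pow, map_ofNat]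
  have hc0 : a ^ 2 - 4 * b ≠ 0 := by
    intro h0
    apply nc
    rw [ec, h0, map_zero]
  refine ⟨hb0, hc0, v w, ?_, ?_, ?_⟩
  · have hb' := map_ne hb0
    have e1 : v (gq b) = 2 * v (w ^ 2) := by
      apply h.unit nb (pow_ne_zero 2 hw)
      · rw [← pow_mul]
        exact b1
      · rw [← pow_mul]
        exact b2
    rw [h.sq hw] at e1
    have e2 : v (gq b) = n (b.map (algebraMap ℚ ℂ)) := h.pol _ hb'
    omega
  · have hc' := map_ne hc0
    rw [ec] at c1 c2 nc
    have e1 : v (gq (a ^ 2 - 4 * b)) = 2 * v (w ^ 2) := by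
      apply h.unit nc (pow_ne_zero 2 hw)
      · rw [← pow_mul]
        exact c1
      · rw [← pow_mul]
        exact c2
    rw [h.sq hw] at e1
    have e2 : v (gq (a ^ 2 - 4 * b)) = n ((a ^ 2 - 4 * b).map (algebraMap ℚ ℂ)) := h.pol _ hc'
    omega
  · intro ha0
    have ha' := map_ne ha0
    have na : gq a ≠ 0 := alg_ne ha'
    have hw2 : w ^ 2 ≠ 0 := pow_ne_zero 2 hw
    have e1 := (h.mem _ (div_ne_zero na hw2)).mp a1
    have e4 := h.mul (gq a / w ^ 2) (w ^ 2) (div_ne_zero na hw2) hw2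
    rw [div_mul_cancel₀ _ hw2, h.sq hw] at e4
    have e2 : v (gq a) = n (a.map (algebraMap ℚ ℂ)) := h.pol _ ha'
    omega

/-- BD1 -/
theorem bd1 (gd1 : Gd1Stmt) (_dlt : DltStmt) (hPLC : PLCStmt) : Bd1Stmt := by
  classical
  intro E e a b _ hR hrat hbad
  obtain ⟨hfin, Ai, vi, hAi, mi, memi, pi⟩ := hPLC
  choose A v hA hm hmem hp using hfin
  have oi : Ord Ai vi (fun p => -(p.natDegree : ℤ)) := ⟨hAi.1, mi, memi, pi⟩
  have ot : ∀ t, Ord (A t) (v t) (fun p => (p.rootMultiplicity t : ℤ)) :=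
    fun t => ⟨(hA t).1, hm t, hmem t, hp t⟩
  have hout : ∀ t c : ℂ, t ≠ c → (algebraMap ℂ[X] (RatFunc ℂ) (X - C c))⁻¹ ∈ A t := by
    intro t c hne
    have h0 : (X - C c : ℂ[X]) ≠ 0 := X_sub_C_ne_zero c
    rw [(ot t).mem _ (inv_ne_zero (alg_ne h0)), (ot t).inv (alg_ne h0), (ot t).pol _ h0]
    simp only [rootMultiplicity_X_sub_C]
    rw [if_neg hne]
    norm_num
  have hinj : Function.Injective A := by
    intro t t' htt
    by_contra hne
    have h0 : (X - C t : ℂ[X]) ≠ 0 := X_sub_C_ne_zero t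
    have h1 := hout t' t (fun h => hne h.symm)
    rw [← htt] at h1
    rw [(ot t).mem _ (inv_ne_zero (alg_ne h0)), (ot t).inv (alg_ne h0), (ot t).pol _ h0] at h1
    simp only [rootMultiplicity_X_sub_C] at h1
    norm_num at h1
  have hX : ∀ t, algebraMap ℂ[X] (RatFunc ℂ) X ∈ A t := by
    intro t
    rw [(ot t).mem _ (alg_ne X_ne_zero), (ot t).pol _ X_ne_zero]
    positivity
  have hni : ∀ t, A t ≠ Ai := by
    intro t htt
    have h1 := hX t
    rw [htt, oi.mem _ (alg_ne X_ne_zero), oi.pol _ X_ne_zero] at h1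
    simp only [natDegree_X] at h1
    norm_num at h1
  have hbt : ∀ t, ¬ Gt a b t → A t ∈ badPlaces E := by
    intro t ht
    refine ⟨hA t, ?_⟩
    intro hg
    obtain ⟨hb0, hc0, k, k1, k2, k3⟩ := key1 gd1 (ot t) hg hR
    apply ht
    refine ⟨k.toNat, ?_, by omega, by omega⟩
    by_cases ha : a = 0
    · rw [ha, Polynomial.map_zero]
      exact dvd_zero _
    · rw [← le_rootMultiplicity_iff (map_ne ha)]
      have := k3 ha
      omega
  refine ⟨?_, ?_⟩
  · intro t ht
    rcases hrat _ (hbt t ht) with h | ⟨c, hc⟩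
    · exact absurd (by rw [← RatFunc.algebraMap_X]; exact hX t) h
    · refine ⟨c, ?_⟩
      by_contra hne
      apply hc
      have := hout t (c : ℂ) hne
      rwa [map_sub, RatFunc.algebraMap_X, RatFunc.algebraMap_C] at this
  · intro F hF
    have hsub : A '' (F : Set ℂ) ⊆ badPlaces E := by
      rintro _ ⟨t, ht, rfl⟩
      exact hbt t (hF t ht)
    have hcard : (A '' (F : Set ℂ)).encard = F.card := by
      rw [hinj.encard_image, Set.encard_coe_eq_coe_finsetCard]
    refine ⟨?_, ?_⟩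
    · have := (Set.encard_le_encard hsub).trans hbad
      rw [hcard] at this
      exact_mod_cast this
    · intro hnot
      have hbi : Ai ∈ badPlaces E := by
        refine ⟨hAi, ?_⟩
        intro hg
        obtain ⟨hb0, hc0, k, k1, k2, k3⟩ := key1 gd1 oi hg hR
        simp only [natDegree_map] at k1 k2 k3
        apply hnot
        refine ⟨(-k).toNat, ?_, by omega, by omega⟩
        by_cases ha : a = 0
        · rw [ha, natDegree_zero]
          omega
        · have := k3 ha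
          omega
      have hn : Ai ∉ A '' (F : Set ℂ) := by
        rintro ⟨t, _, ht⟩
        exact hni t ht
      have hsub' : insert Ai (A '' (F : Set ℂ)) ⊆ badPlaces E := Set.insert_subset hbi hsub
      have := (Set.encard_le_encard hsub').trans hbad
      rw [Set.encard_insert_of_notMem hn, hcard] at this
      have h3 : F.card + 1 ≤ 3 := by exact_mod_cast this
      omega

end

end Pool.Agent.G02.H85
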